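import Pool.Agent.Helper15.FC.St1

set_option autoImplicit false

namespace Pool.Agent.Helper76.FC

open Pool.Agent.Helper15.FC Polynomial

private lemma pow_mem_Vj (hVB : StVB) {L : Type} [Field L] {b : ℕ} (y : Fin b → PowerSeries L)
    (J : ℕ) (Θ : PowerSeries L) (h : Θ ∈ Vj y J) (n : ℕ) : Θ ^ n ∈ Vj y (n * J) := by
  obtain ⟨hmul, -, hX, -, -, -, -⟩ := hVB L b y
  induction n with
  | zero =>
    have h0 := hX 0
    rw [pow_zero] at h0
    rw [pow_zero, Nat.zero_mul]
    exact h0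
  | succ n ih =>
    rw [pow_succ, Nat.succ_mul]
    exact hmul _ _ _ _ ih h

theorem hDEG (hVB : StVB) : StDEG := by
  intro L _ b q y I D C hDat J Θ g W hΘ hΘ0 hg hW
  obtain ⟨hD, -, hind, hrep⟩ := hDat
  obtain ⟨-, -, -, -, -, -, hRR⟩ := hVB L b y
  have hg0 : g ≠ 0 := by
    rintro rfl
    exact hΘ0 (by rw [hW, mul_zero])
  have hW0 : W ≠ 0 := by
    rintro rfl
    exact hΘ0 (by rw [hW, Polynomial.coe_zero, zero_mul])
  have hDp : (D : PowerSeries L) ≠ 0 := by
    intro h
    exact hD (Polynomial.coe_injective L (by rw [h, Polynomial.coe_zero]))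
  obtain ⟨i, hi⟩ := (hRR (g ^ (C + 1))).mp ((RR y).pow_mem hg _)
  obtain ⟨G, -, hG⟩ := hrep i _ hi
  obtain ⟨G', hG'd, hG'⟩ := hrep ((C + 1) * J) _ (pow_mem_Vj hVB y J Θ hΘ (C + 1))
  have hrel : ∀ e ∈ I, G' e = W ^ (C + 1) * G e := by
    have h1 := hind (fun e => G' e - W ^ (C + 1) * G e) (by
      have h2 : ∀ e : Fin b → Fin q, ((G' e - W ^ (C + 1) * G e : L[X]) : PowerSeries L) *
          ymon y e = (G' e : PowerSeries L) * ymon y e -
            ((W : PowerSeries L) ^ (C + 1)) * ((G e : PowerSeries L) * ymon y e) := by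
        intro e
        rw [Polynomial.coe_sub, Polynomial.coe_mul, Polynomial.coe_pow]
        ring
      rw [Finset.sum_congr rfl fun e _ => h2 e, Finset.sum_sub_distrib, ← Finset.mul_sum, ← hG,
        ← hG', hW]
      ring)
    intro e he
    exact sub_eq_zero.mp (h1 e he)
  have hex : ∃ e ∈ I, G e ≠ 0 := by
    by_contra hcon
    push Not at hcon
    have h1 : ∑ e ∈ I, (G e : PowerSeries L) * ymon y e = 0 :=
      Finset.sum_eq_zero fun e he => by rw [hcon e he, Polynomial.coe_zero, zero_mul]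
    rw [h1] at hG
    exact mul_ne_zero hDp (pow_ne_zero _ hg0) hG
  obtain ⟨e, he, hGe⟩ := hex
  have h1 := hG'd e
  rw [hrel e he, Polynomial.natDegree_mul (pow_ne_zero _ hW0) hGe,
    Polynomial.natDegree_pow] at h1
  by_contra hcon
  push Not at hcon
  have h2 : (C + 1) * (J + 1) ≤ (C + 1) * W.natDegree := Nat.mul_le_mul_left _ hcon
  have h3 : (C + 1) * (J + 1) = (C + 1) * J + (C + 1) := by ring
  omega

end Pool.Agent.Helper76.FC
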