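import Pool.Agent.Helper15.FC.St3

set_option autoImplicit false

/-!
Project FC, module EMN.
-/

open Polynomial

namespace Pool.Agent.Helper76.FC

open Pool.Agent.Helper15.FC

noncomputable section

private theorem mem_split' {F : Type} [Field F] [Fintype F] {N j : ℕ} {G g : F[X]}
    (hG : G ∈ Mn F N) (hg : g ∈ Lw F j) : X ^ j * G + g ∈ Mn F (N + j) := by
  rw [mem_Mn] at hG
  rw [mem_Lw] at hg
  rw [mem_Mn]
  have hG0 : G ≠ 0 := hG.1.ne_zero
  have h1 : (X ^ j * G).Monic := (Polynomial.monic_X_pow j).mul hG.1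
  have h2 : (X ^ j * G).natDegree = N + j := by
    rw [Polynomial.natDegree_mul (pow_ne_zero _ Polynomial.X_ne_zero) hG0,
      Polynomial.natDegree_X_pow, hG.2]
    ring
  have h3 : g.degree < (X ^ j * G).degree := by
    rw [Polynomial.degree_eq_natDegree h1.ne_zero, h2]
    refine lt_of_lt_of_le hg ?_
    exact_mod_cast Nat.le_add_left j N
  refine ⟨h1.add_of_left h3, ?_⟩
  rw [Polynomial.natDegree_add_eq_left_of_degree_lt h3, h2]

private theorem coeff_split' {F : Type} [Field F] [Fintype F] {j : ℕ} {G g : F[X]}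
    (hg : g ∈ Lw F j) (i : ℕ) : (X ^ j * G + g).coeff (j + i) = G.coeff i := by
  rw [mem_Lw, Polynomial.degree_lt_iff_coeff_zero] at hg
  rw [Polynomial.coeff_add, hg (j + i) (Nat.le_add_right j i), add_zero, add_comm j i,
    Polynomial.coeff_X_pow_mul]

private theorem inj_split' {F : Type} [Field F] [Fintype F] {j : ℕ} {G g G' g' : F[X]}
    (hg : g ∈ Lw F j) (hg' : g' ∈ Lw F j) (h : X ^ j * G + g = X ^ j * G' + g') :
    G = G' ∧ g = g' := by
  have h1 : G = G' := by
    ext i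
    rw [← coeff_split' (G := G) hg i, ← coeff_split' (G := G') hg' i]
    exact congrArg (fun q : F[X] => q.coeff (j + i)) h
  refine ⟨h1, ?_⟩
  rw [h1] at h
  exact add_left_cancel h

private theorem div_mod_split {F : Type} [Field F] [Fintype F] (f : F[X]) (j : ℕ) :
    f %ₘ (X ^ j) ∈ Lw F j ∧ X ^ j * (f /ₘ (X ^ j)) + f %ₘ (X ^ j) = f := by
  have hm : (X ^ j : F[X]).Monic := Polynomial.monic_X_pow j
  constructor
  · rw [mem_Lw]
    have := Polynomial.degree_modByMonic_lt f hm
    rwa [Polynomial.degree_X_pow] at this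
  · have := Polynomial.modByMonic_add_div f (X ^ j : F[X])
    linear_combination this

private theorem sum_split_M {M : Type} [AddCommMonoid M] {F : Type} [Field F] [Fintype F]
    (N j : ℕ) (h : F[X] → M) :
    ∑ f ∈ Mn F (N + j), h f = ∑ G ∈ Mn F N, ∑ g ∈ Lw F j, h (X ^ j * G + g) := by
  rw [← Finset.sum_product']
  symm
  refine Finset.sum_bij (fun p _ => X ^ j * p.1 + p.2) ?_ ?_ ?_ ?_
  · intro p hp
    rw [Finset.mem_product] at hp
    exact mem_split' hp.1 hp.2
  · intro p hp p' hp' hpp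
    rw [Finset.mem_product] at hp hp'
    obtain ⟨h1, h2⟩ := inj_split' hp.2 hp'.2 hpp
    exact Prod.ext h1 h2
  · intro f hf
    rw [mem_Mn] at hf
    have hm : (X ^ j : F[X]).Monic := Polynomial.monic_X_pow j
    have hdeg : (X ^ j : F[X]).degree ≤ f.degree := by
      rw [Polynomial.degree_X_pow, Polynomial.degree_eq_natDegree hf.1.ne_zero, hf.2]
      exact_mod_cast Nat.le_add_left j N
    refine ⟨(f /ₘ (X ^ j), f %ₘ (X ^ j)), ?_, (div_mod_split f j).2⟩
    rw [Finset.mem_product]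
    refine ⟨mem_Mn.2 ⟨?_, ?_⟩, (div_mod_split f j).1⟩
    · have := Polynomial.leadingCoeff_divByMonic_of_monic hm hdeg
      change (f /ₘ (X ^ j)).leadingCoeff = 1
      rw [this]
      exact hf.1
    · change (f /ₘ (X ^ j)).natDegree = N
      rw [Polynomial.natDegree_divByMonic f hm, hf.2, Polynomial.natDegree_X_pow]
      omega
  · intro p _
    rfl

private theorem sum_split_L {M : Type} [AddCommMonoid M] {F : Type} [Field F] [Fintype F]
    (N j : ℕ) (h : F[X] → M) :
    ∑ f ∈ Lw F (N + j), h f = ∑ G ∈ Lw F N, ∑ g ∈ Lw F j, h (X ^ j * G + g) := by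
  rw [← Finset.sum_product']
  symm
  refine Finset.sum_bij (fun p _ => X ^ j * p.1 + p.2) ?_ ?_ ?_ ?_
  · intro p hp
    rw [Finset.mem_product] at hp
    have h1 := hp.1
    have h2 := hp.2
    rw [mem_Lw, Polynomial.degree_lt_iff_coeff_zero] at h1
    rw [mem_Lw, Polynomial.degree_lt_iff_coeff_zero]
    intro i hi
    have e : i = j + (i - j) := by omega
    rw [e, coeff_split' h2]
    exact h1 (i - j) (by omega)
  · intro p hp p' hp' hpp
    rw [Finset.mem_product] at hp hp'
    obtain ⟨h1, h2⟩ := inj_split' hp.2 hp'.2 hpp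
    exact Prod.ext h1 h2
  · intro f hf
    rw [mem_Lw, Polynomial.degree_lt_iff_coeff_zero] at hf
    refine ⟨(f /ₘ (X ^ j), f %ₘ (X ^ j)), ?_, (div_mod_split f j).2⟩
    rw [Finset.mem_product]
    refine ⟨?_, (div_mod_split f j).1⟩
    rw [mem_Lw, Polynomial.degree_lt_iff_coeff_zero]
    intro i hi
    change (f /ₘ (X ^ j)).coeff i = 0
    rw [← coeff_split' (G := f /ₘ (X ^ j)) (div_mod_split f j).1 i, (div_mod_split f j).2]
    exact hf (j + i) (by omega)
  · intro p _
    rfl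

/-- the additive character `g ↦ η(X^j g) ν(-X^j g)` -/
private def twist {F : Type} [Field F] (j : ℕ) (η ν : AddChar F[X] ℂ) : AddChar F[X] ℂ where
  toFun g := η (X ^ j * g) * ν (-(X ^ j * g))
  map_zero_eq_one' := by simp
  map_add_eq_mul' a b := by
    rw [mul_add, neg_add, AddChar.map_add_eq_mul, AddChar.map_add_eq_mul]
    ring

private theorem twist_apply {F : Type} [Field F] (j : ℕ) (η ν : AddChar F[X] ℂ) (g : F[X]) :
    twist j η ν g = η (X ^ j * g) * ν (-(X ^ j * g)) := rfl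

private theorem char_neg {F : Type} [Field F] (ν : AddChar F[X] ℂ) (x : F[X]) :
    ν x * ν (-x) = 1 := by
  rw [← AddChar.map_add_eq_mul, add_neg_cancel, AddChar.map_zero_eq_one]

theorem hEMN (hACF : StACF) (hNTS : StNTS) : StEMN := by
  intro F _ _ k n m j r ν η hmn hjm _ hag hne
  obtain ⟨hchar, -⟩ := hACF F
  -- the twist is not trivial
  have htw : ∃ g ∈ Lw F (m - j), twist j η ν g ≠ 1 := by
    by_contra hcon
    push Not at hcon
    obtain ⟨g, hg, hgne⟩ := hne
    apply hgne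
    have hg' := hg
    rw [mem_Lw, Polynomial.degree_lt_iff_coeff_zero] at hg'
    obtain ⟨hlo, heq⟩ := div_mod_split g j
    have hhi : g /ₘ (X ^ j) ∈ Lw F (m - j) := by
      rw [mem_Lw, Polynomial.degree_lt_iff_coeff_zero]
      intro i hi
      rw [← coeff_split' (G := g /ₘ (X ^ j)) hlo i, heq]
      exact hg' (j + i) (by omega)
    have h1 := hcon _ hhi
    rw [twist_apply] at h1
    have h2 : η (X ^ j * (g /ₘ (X ^ j))) = ν (X ^ j * (g /ₘ (X ^ j))) := by
      have h3 := char_neg ν (X ^ j * (g /ₘ (X ^ j)))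
      have h4 : ν (-(X ^ j * (g /ₘ (X ^ j)))) ≠ 0 := by
        intro h5
        rw [h5, mul_zero] at h3
        exact zero_ne_one h3
      exact mul_right_cancel₀ h4 (h1.trans h3.symm)
    rw [← heq, AddChar.map_add_eq_mul, AddChar.map_add_eq_mul, h2, hag _ hlo]
  have hzero := hNTS F (twist j η ν) (m - j) htw
  set c : ℂ := ((qr F ^ (n - j) : ℝ) : ℂ)⁻¹ * Sn k n ν with hc
  set B : F[X] → ℂ := fun G => ∑ g ∈ Lw F j, (dk k (X ^ j * G + g) : ℂ) * ν (X ^ j * G + g)
    with hB
  have hmj : m = (m - j) + j := by omega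
  have hXm : (X ^ m : F[X]) = X ^ j * X ^ (m - j) := by
    rw [← pow_add]
    congr 1
    omega
  -- the formula for `Ae`
  have hAe : ∀ G : F[X], Ae k m η G = ∑ g2 ∈ Lw F (m - j),
      (η (X ^ j * g2) * ν (-(X ^ j * (X ^ (m - j) * G + g2)))) *
        (B (X ^ (m - j) * G + g2) - c) := by
    intro G
    have h1 : Ae k m η G = ∑ g2 ∈ Lw F (m - j),
        (η (X ^ j * g2) * ν (-(X ^ j * (X ^ (m - j) * G + g2)))) *
          B (X ^ (m - j) * G + g2) := by
      unfold Ae
      have h2 := sum_split_L (m - j) j (fun g => (dk k (X ^ m * G + g) : ℂ) * η g)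
      rw [← hmj] at h2
      rw [h2]
      refine Finset.sum_congr rfl fun g2 _ => ?_
      rw [hB, Finset.mul_sum]
      refine Finset.sum_congr rfl fun g hg => ?_
      have e1 : X ^ m * G + (X ^ j * g2 + g) = X ^ j * (X ^ (m - j) * G + g2) + g := by
        rw [hXm]
        ring
      rw [e1, AddChar.map_add_eq_mul η, hag g hg, AddChar.map_add_eq_mul ν]
      have h3 := char_neg ν (X ^ j * (X ^ (m - j) * G + g2))
      linear_combination (-(dk k (X ^ j * (X ^ (m - j) * G + g2) + g) : ℂ) *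
        (η (X ^ j * g2) * ν g)) * h3
    have h2 : ∑ g2 ∈ Lw F (m - j),
        (η (X ^ j * g2) * ν (-(X ^ j * (X ^ (m - j) * G + g2)))) * c = 0 := by
      rw [← Finset.sum_mul]
      have h3 : ∑ g2 ∈ Lw F (m - j), η (X ^ j * g2) * ν (-(X ^ j * (X ^ (m - j) * G + g2))) =
          ν (-(X ^ m * G)) * ∑ g2 ∈ Lw F (m - j), twist j η ν g2 := by
        rw [Finset.mul_sum]
        refine Finset.sum_congr rfl fun g2 _ => ?_
        have e2 : -(X ^ j * (X ^ (m - j) * G + g2)) = -(X ^ m * G) + -(X ^ j * g2) := by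
          rw [hXm]
          ring
        rw [e2, AddChar.map_add_eq_mul ν, twist_apply]
        ring
      rw [h3, hzero, mul_zero, zero_mul]
    rw [h1]
    have h4 : ∀ g2 ∈ Lw F (m - j),
        (η (X ^ j * g2) * ν (-(X ^ j * (X ^ (m - j) * G + g2)))) *
          (B (X ^ (m - j) * G + g2) - c) =
        (η (X ^ j * g2) * ν (-(X ^ j * (X ^ (m - j) * G + g2)))) *
          B (X ^ (m - j) * G + g2) -
        (η (X ^ j * g2) * ν (-(X ^ j * (X ^ (m - j) * G + g2)))) * c := fun g2 _ => mul_sub _ _ _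
    rw [Finset.sum_congr rfl h4, Finset.sum_sub_distrib, h2, sub_zero]
  -- Cauchy's inequality
  have hCS : ∀ G : F[X], ‖Ae k m η G‖ ^ 2 ≤ qr F ^ (m - j) *
      ∑ g2 ∈ Lw F (m - j), ‖B (X ^ (m - j) * G + g2) - c‖ ^ 2 := by
    intro G
    have h1 : ‖Ae k m η G‖ ≤ ∑ g2 ∈ Lw F (m - j), ‖B (X ^ (m - j) * G + g2) - c‖ := by
      rw [hAe G]
      refine le_trans (norm_sum_le _ _) (le_of_eq ?_)
      refine Finset.sum_congr rfl fun g2 _ => ?_
      rw [norm_mul, norm_mul, (hchar η _).1, (hchar ν _).1, one_mul, one_mul]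
    have h2 : ‖Ae k m η G‖ ^ 2 ≤
        (∑ g2 ∈ Lw F (m - j), ‖B (X ^ (m - j) * G + g2) - c‖) ^ 2 :=
      pow_le_pow_left₀ (norm_nonneg _) h1 2
    refine le_trans h2 ?_
    have h3 := sq_sum_le_card_mul_sum_sq (s := Lw F (m - j))
      (f := fun g2 => ‖B (X ^ (m - j) * G + g2) - c‖)
    rw [card_Lw] at h3
    push_cast at h3
    exact h3
  refine le_trans (Finset.sum_le_sum fun G _ => hCS G) ?_
  rw [← Finset.mul_sum]
  refine le_of_eq ?_
  congr 1
  have h5 := sum_split_M (n - m) (m - j) (fun G' : F[X] => ‖B G' - c‖ ^ 2)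
  have e3 : n - m + (m - j) = n - j := by omega
  rw [e3] at h5
  rw [← h5]

end

end Pool.Agent.Helper76.FC
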