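import Pool.Agent.Helper15.FC.St2

set_option autoImplicit false

/-!
Project FC, module VAR.
-/

open Polynomial

namespace Pool.Agent.Helper76.FC

open Pool.Agent.Helper15.FC

noncomputable section

/-- the class of a polynomial in `TN F N` -/
private def cls {F : Type} [Field F] (N : ℕ) (v : F[X]) : TN F N :=
  AdjoinRoot.mk (X ^ (N + 1) : F[X]) v

private theorem cls_eq_iff {F : Type} [Field F] {N : ℕ} {v w : F[X]} :
    cls N v = cls N w ↔ ∀ i : ℕ, i ≤ N → v.coeff i = w.coeff i := by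
  unfold cls
  rw [AdjoinRoot.mk_eq_mk, Polynomial.X_pow_dvd_iff]
  constructor
  · intro h i hi
    have := h i (Nat.lt_succ_of_le hi)
    rw [Polynomial.coeff_sub] at this
    exact sub_eq_zero.1 this
  · intro h i hi
    rw [Polynomial.coeff_sub, h i (Nat.le_of_lt_succ hi), sub_self]

private theorem cls_mul {F : Type} [Field F] (N : ℕ) (v w : F[X]) :
    cls N (v * w) = cls N v * cls N w := by
  unfold cls
  rw [map_mul]

private theorem rev_coeff {F : Type} [Field F] {f : F[X]} {n i : ℕ} (hn : f.natDegree = n)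
    (hi : i ≤ n) : f.reverse.coeff i = f.coeff (n - i) := by
  rw [Polynomial.coeff_reverse, hn, Polynomial.revAt_le hi]

/-- the decomposition `f = X^j G + g` -/
private theorem mem_split {F : Type} [Field F] [Fintype F] {N j : ℕ} {G g : F[X]}
    (hG : G ∈ Mn F N) (hg : g ∈ Lw F j) : X ^ j * G + g ∈ Mn F (N + j) := by
  rw [mem_Mn] at hG
  rw [mem_Lw] at hg
  rw [mem_Mn]
  have hG0 : G ≠ 0 := hG.1.ne_zero
  have h1 : (X ^ j * G).Monic := (Polynomial.monic_X_pow j).mul hG.1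
  have h2 : (X ^ j * G).natDegree = N + j := by
    rw [Polynomial.natDegree_mul (pow_ne_zero _ Polynomial.X_ne_zero) hG0,
      Polynomial.natDegree_X_pow, hG.2]
    ring
  have h3 : g.degree < (X ^ j * G).degree := by
    rw [Polynomial.degree_eq_natDegree h1.ne_zero, h2]
    refine lt_of_lt_of_le hg ?_
    exact_mod_cast Nat.le_add_left j N
  refine ⟨h1.add_of_left h3, ?_⟩
  rw [Polynomial.natDegree_add_eq_left_of_degree_lt h3, h2]

private theorem coeff_split {F : Type} [Field F] [Fintype F] {j : ℕ} {G g : F[X]}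
    (hg : g ∈ Lw F j) (i : ℕ) : (X ^ j * G + g).coeff (j + i) = G.coeff i := by
  rw [mem_Lw, Polynomial.degree_lt_iff_coeff_zero] at hg
  rw [Polynomial.coeff_add, hg (j + i) (Nat.le_add_right j i), add_zero, add_comm j i,
    Polynomial.coeff_X_pow_mul]

private theorem sum_split {F : Type} [Field F] [Fintype F] (N j : ℕ) (h : F[X] → ℂ) :
    ∑ f ∈ Mn F (N + j), h f = ∑ G ∈ Mn F N, ∑ g ∈ Lw F j, h (X ^ j * G + g) := by
  rw [← Finset.sum_product']
  symm
  refine Finset.sum_bij (fun p _ => X ^ j * p.1 + p.2) ?_ ?_ ?_ ?_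
  · intro p hp
    rw [Finset.mem_product] at hp
    exact mem_split hp.1 hp.2
  · intro p hp p' hp' hpp
    rw [Finset.mem_product] at hp hp'
    have h1 : p.1 = p'.1 := by
      ext i
      rw [← coeff_split (G := p.1) hp.2 i, ← coeff_split (G := p'.1) hp'.2 i]
      exact congrArg (fun q : F[X] => q.coeff (j + i)) hpp
    have h2 : p.2 = p'.2 := by
      have hpp' : X ^ j * p.1 + p.2 = X ^ j * p'.1 + p'.2 := hpp
      rw [h1] at hpp'
      exact add_left_cancel hpp'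
    exact Prod.ext h1 h2
  · intro f hf
    rw [mem_Mn] at hf
    have hm : (X ^ j : F[X]).Monic := Polynomial.monic_X_pow j
    have hdeg : (X ^ j : F[X]).degree ≤ f.degree := by
      rw [Polynomial.degree_X_pow, Polynomial.degree_eq_natDegree hf.1.ne_zero, hf.2]
      exact_mod_cast Nat.le_add_left j N
    refine ⟨(f /ₘ (X ^ j), f %ₘ (X ^ j)), ?_, ?_⟩
    · rw [Finset.mem_product]
      refine ⟨mem_Mn.2 ⟨?_, ?_⟩, mem_Lw.2 ?_⟩
      · have := Polynomial.leadingCoeff_divByMonic_of_monic hm hdeg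
        change (f /ₘ (X ^ j)).leadingCoeff = 1
        rw [this]
        exact hf.1
      · change (f /ₘ (X ^ j)).natDegree = N
        rw [Polynomial.natDegree_divByMonic f hm, hf.2, Polynomial.natDegree_X_pow]
        omega
      · change (f %ₘ (X ^ j)).degree < j
        have := Polynomial.degree_modByMonic_lt f hm
        rwa [Polynomial.degree_X_pow] at this
    · change X ^ j * (f /ₘ (X ^ j)) + f %ₘ (X ^ j) = f
      have := Polynomial.modByMonic_add_div f (X ^ j : F[X])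
      linear_combination this
  · intro p _
    rfl

private theorem cls_rev_split {F : Type} [Field F] [Fintype F] {N j : ℕ} {G g : F[X]}
    (hG : G ∈ Mn F N) (hg : g ∈ Lw F j) :
    cls N (X ^ j * G + g).reverse = cls N G.reverse := by
  rw [cls_eq_iff]
  intro i hi
  have h1 := (mem_Mn.1 (mem_split hG hg)).2
  rw [rev_coeff h1 (by omega), rev_coeff (mem_Mn.1 hG).2 hi]
  have h2 : N + j - i = j + (N - i) := by omega
  rw [h2, coeff_split hg]

private theorem cls_rev_inj {F : Type} [Field F] [Fintype F] {N : ℕ} {G H : F[X]}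
    (hG : G ∈ Mn F N) (hH : H ∈ Mn F N) (h : cls N G.reverse = cls N H.reverse) : G = H := by
  rw [cls_eq_iff] at h
  rw [mem_Mn] at hG hH
  ext i
  by_cases hi : i ≤ N
  · have := h (N - i) (Nat.sub_le N i)
    rw [rev_coeff hG.2 (Nat.sub_le N i), rev_coeff hH.2 (Nat.sub_le N i)] at this
    have e : N - (N - i) = i := by omega
    rwa [e] at this
  · rw [Polynomial.coeff_eq_zero_of_natDegree_lt (by omega),
      Polynomial.coeff_eq_zero_of_natDegree_lt (by omega)]

private theorem rev_zero {F : Type} [Field F] [Fintype F] {N : ℕ} {G : F[X]}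
    (hG : G ∈ Mn F N) : G.reverse.coeff 0 = 1 := by
  rw [Polynomial.coeff_zero_reverse]
  exact (mem_Mn.1 hG).1

/-- every one-unit comes from a monic polynomial of degree `N` -/
private theorem exists_rev {F : Type} [Field F] [Fintype F] (N : ℕ) (v : F[X])
    (hv : v.coeff 0 = 1) : ∃ G ∈ Mn F N, cls N G.reverse = cls N v := by
  have hlow : ∀ k : ℕ, k < N → (low (fun i : Fin N => v.coeff (N - i))).coeff k =
      v.coeff (N - k) := by
    intro k hk
    exact low_coeff (fun i : Fin N => v.coeff (N - i)) ⟨k, hk⟩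
  have hd := low_degree (fun i : Fin N => v.coeff (N - i))
  rw [Polynomial.degree_lt_iff_coeff_zero] at hd
  have hmem : mon (fun i : Fin N => v.coeff (N - i)) ∈ Mn F N := by
    classical
    unfold Mn
    exact Finset.mem_image_of_mem _ (Finset.mem_univ _)
  refine ⟨mon (fun i : Fin N => v.coeff (N - i)), hmem, ?_⟩
  rw [cls_eq_iff]
  intro i hi
  rw [rev_coeff (mem_Mn.1 hmem).2 hi]
  unfold mon
  rw [Polynomial.coeff_add, Polynomial.coeff_X_pow]
  by_cases h0 : i = 0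
  · subst h0
    rw [Nat.sub_zero, if_pos rfl, hd N (le_refl N), add_zero, hv]
  · rw [if_neg (by omega), hlow (N - i) (by omega), zero_add]
    congr 1
    omega

private theorem cls_cancel {F : Type} [Field F] (N : ℕ) (v a b : F[X]) (hv : v.coeff 0 = 1)
    (h : cls N v * cls N a = cls N v * cls N b) : cls N a = cls N b := by
  rw [← cls_mul, ← cls_mul] at h
  unfold cls at h ⊢
  rw [AdjoinRoot.mk_eq_mk] at h ⊢
  have hc : IsCoprime (X ^ (N + 1) : F[X]) v := by
    refine IsCoprime.pow_left ?_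
    refine (Polynomial.irreducible_X.coprime_iff_not_dvd).2 ?_
    rw [Polynomial.X_dvd_iff, hv]
    exact one_ne_zero
  rw [← mul_sub] at h
  exact hc.dvd_of_dvd_mul_left h

private theorem sum_xi_zero {F : Type} [Field F] [Fintype F] (N : ℕ) (ξ : MulChar (TN F N) ℂ)
    (hξ : NTx ξ) : ∑ G ∈ Mn F N, ξ (cls N G.reverse) = 0 := by
  classical
  obtain ⟨v0, hv0, hne⟩ := hξ
  have hne' : ξ (cls N v0) ≠ 1 := hne
  set U : Finset (TN F N) := (Mn F N).image (fun G => cls N G.reverse) with hU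
  have hUmem : ∀ x : TN F N, x ∈ U ↔ ∃ v : F[X], v.coeff 0 = 1 ∧ cls N v = x := by
    intro x
    rw [hU, Finset.mem_image]
    constructor
    · rintro ⟨G, hG, rfl⟩
      exact ⟨G.reverse, rev_zero hG, rfl⟩
    · rintro ⟨v, hv, rfl⟩
      obtain ⟨G, hG, h⟩ := exists_rev N v hv
      exact ⟨G, hG, h⟩
  have hsum : ∑ G ∈ Mn F N, ξ (cls N G.reverse) = ∑ x ∈ U, ξ x := by
    rw [hU, Finset.sum_image]
    intro G hG H hH h
    exact cls_rev_inj hG hH h
  have hinj : Set.InjOn (fun x : TN F N => cls N v0 * x) (U : Set (TN F N)) := by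
    intro x hx y hy hxy
    obtain ⟨a, -, rfl⟩ := (hUmem x).1 (Finset.mem_coe.1 hx)
    obtain ⟨b, -, rfl⟩ := (hUmem y).1 (Finset.mem_coe.1 hy)
    exact cls_cancel N v0 a b hv0 hxy
  have himg : U.image (fun x : TN F N => cls N v0 * x) = U := by
    refine Finset.eq_of_subset_of_card_le ?_ ?_
    · intro y hy
      rw [Finset.mem_image] at hy
      obtain ⟨x, hx, rfl⟩ := hy
      obtain ⟨a, ha, rfl⟩ := (hUmem x).1 hx
      rw [hUmem]
      refine ⟨v0 * a, ?_, cls_mul N v0 a⟩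
      rw [Polynomial.mul_coeff_zero, hv0, ha, one_mul]
    · rw [Finset.card_image_of_injOn hinj]
  have h2 : ∑ x ∈ U, ξ x = ξ (cls N v0) * ∑ x ∈ U, ξ x := by
    conv_lhs => rw [← himg]
    rw [Finset.sum_image hinj, Finset.mul_sum]
    refine Finset.sum_congr rfl fun x _ => ?_
    rw [map_mul]
  rw [hsum]
  have h3 : (ξ (cls N v0) - 1) * ∑ x ∈ U, ξ x = 0 := by
    rw [sub_mul, ← h2, one_mul, sub_self]
  rcases mul_eq_zero.1 h3 with h | h
  · exact absurd (sub_eq_zero.1 h) hne'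
  · exact h

/-- Parseval over all the characters -/
private theorem parseval (hORT : StORT) {F : Type} [Field F] [Fintype F] (N : ℕ)
    (B : F[X] → ℂ) :
    ∑ ξ ∈ allF (MulChar (TN F N) ℂ), ‖∑ G ∈ Mn F N, B G * ξ (cls N G.reverse)‖ ^ 2 =
      uN F N * ∑ G ∈ Mn F N, ‖B G‖ ^ 2 := by
  classical
  have key : ((∑ ξ ∈ allF (MulChar (TN F N) ℂ),
      ‖∑ G ∈ Mn F N, B G * ξ (cls N G.reverse)‖ ^ 2 : ℝ) : ℂ) =
      ((uN F N * ∑ G ∈ Mn F N, ‖B G‖ ^ 2 : ℝ) : ℂ) := by
    push_cast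
    have h1 : ∀ ξ ∈ allF (MulChar (TN F N) ℂ),
        ((‖∑ G ∈ Mn F N, B G * ξ (cls N G.reverse)‖ : ℂ)) ^ 2 =
        ∑ G ∈ Mn F N, ∑ H ∈ Mn F N, (B G * (starRingEnd ℂ) (B H)) *
          (ξ (cls N G.reverse) * (starRingEnd ℂ) (ξ (cls N H.reverse))) := by
      intro ξ _
      rw [← Complex.mul_conj', map_sum, Finset.sum_mul_sum]
      refine Finset.sum_congr rfl fun G _ => Finset.sum_congr rfl fun H _ => ?_
      rw [map_mul]
      ring
    rw [Finset.sum_congr rfl h1, Finset.sum_comm]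
    rw [Finset.mul_sum]
    refine Finset.sum_congr rfl fun G hG => ?_
    rw [Finset.sum_comm]
    rw [Finset.sum_eq_single G]
    · rw [← Finset.mul_sum]
      have h2 := (hORT F N G.reverse G.reverse (by rw [rev_zero hG]; exact one_ne_zero)
        (by rw [rev_zero hG]; exact one_ne_zero)).1 rfl
      unfold cls
      rw [h2, Complex.mul_conj']
      ring
    · intro H hH hne
      rw [← Finset.mul_sum]
      have h2 := (hORT F N G.reverse H.reverse (by rw [rev_zero hG]; exact one_ne_zero)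
        (by rw [rev_zero hH]; exact one_ne_zero)).2 (fun h => hne (cls_rev_inj hG hH h).symm)
      unfold cls
      rw [h2, mul_zero]
    · intro h
      exact absurd hG h
  exact_mod_cast key

/-- splitting off the characters that are trivial on the one-units -/
private theorem parseval_split (hORT : StORT) {F : Type} [Field F] [Fintype F] (N : ℕ) :
    ∃ c : ℝ, ∀ B : F[X] → ℂ,
    ∑ ξ ∈ XiNT F N, ‖∑ G ∈ Mn F N, B G * ξ (cls N G.reverse)‖ ^ 2 +
      c * ‖∑ G ∈ Mn F N, B G‖ ^ 2 = uN F N * ∑ G ∈ Mn F N, ‖B G‖ ^ 2 := by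
  classical
  refine ⟨(((allF (MulChar (TN F N) ℂ)).filter (fun ξ => ¬ NTx ξ)).card : ℝ), fun B => ?_⟩
  rw [← parseval hORT N B]
  have hX : XiNT F N = (allF (MulChar (TN F N) ℂ)).filter (fun ξ => NTx ξ) := by
    unfold XiNT
    congr
  rw [hX, ← Finset.sum_filter_add_sum_filter_not (allF (MulChar (TN F N) ℂ)) (fun ξ => NTx ξ)]
  congr 1
  symm
  rw [← nsmul_eq_mul]
  refine Finset.sum_eq_card_nsmul fun ξ hξ => ?_
  rw [Finset.mem_filter] at hξ
  congr 2
  refine Finset.sum_congr rfl fun G hG => ?_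
  have h1 : ξ (cls N G.reverse) = 1 := by
    by_contra hne
    exact hξ.2 ⟨G.reverse, rev_zero hG, hne⟩
  rw [h1, mul_one]

private theorem one_lt_q (F : Type) [Field F] [Fintype F] : (1 : ℝ) < qr F := by
  have : 1 < Fintype.card F := Fintype.one_lt_card
  exact_mod_cast this

private theorem variance {ι : Type} (S : Finset ι) (B : ι → ℂ) (Q : ℝ) (hQ : Q ≠ 0)
    (hS : (S.card : ℝ) = Q) :
    ∑ G ∈ S, ‖B G - (Q : ℂ)⁻¹ * ∑ H ∈ S, B H‖ ^ 2 =
      ∑ G ∈ S, ‖B G‖ ^ 2 - Q⁻¹ * ‖∑ H ∈ S, B H‖ ^ 2 := by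
  have hQ' : (Q : ℂ) ≠ 0 := by exact_mod_cast hQ
  have hS' : (S.card : ℂ) = (Q : ℂ) := by
    rw [← hS]
    push_cast
    rfl
  have key : ((∑ G ∈ S, ‖B G - (Q : ℂ)⁻¹ * ∑ H ∈ S, B H‖ ^ 2 : ℝ) : ℂ) =
      ((∑ G ∈ S, ‖B G‖ ^ 2 - Q⁻¹ * ‖∑ H ∈ S, B H‖ ^ 2 : ℝ) : ℂ) := by
    push_cast
    set T : ℂ := ∑ H ∈ S, B H with hT
    have hTc : (starRingEnd ℂ) T = ∑ H ∈ S, (starRingEnd ℂ) (B H) := by
      rw [hT, map_sum]
    have h1 : ∀ G ∈ S, ((‖B G - (Q : ℂ)⁻¹ * T‖ : ℂ)) ^ 2 =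
        ((‖B G‖ : ℂ)) ^ 2 - B G * ((Q : ℂ)⁻¹ * (starRingEnd ℂ) T) -
          (starRingEnd ℂ) (B G) * ((Q : ℂ)⁻¹ * T) +
          (Q : ℂ)⁻¹ * (Q : ℂ)⁻¹ * (T * (starRingEnd ℂ) T) := by
      intro G _
      rw [← Complex.mul_conj', ← Complex.mul_conj', map_sub, map_mul, map_inv₀,
        Complex.conj_ofReal]
      ring
    rw [Finset.sum_congr rfl h1, Finset.sum_add_distrib, Finset.sum_sub_distrib,
      Finset.sum_sub_distrib, ← Finset.sum_mul, ← Finset.sum_mul, Finset.sum_const, ← hT, ← hTc,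
      nsmul_eq_mul, hS', ← Complex.mul_conj']
    field_simp
    ring
  exact_mod_cast key

theorem hVAR (hORT : StORT) : StVAR := by
  intro F _ _ N j w
  obtain ⟨c, hc⟩ := parseval_split hORT (F := F) N
  have hq := one_lt_q F
  have hq0 : (0 : ℝ) < qr F := lt_trans one_pos hq
  have hQ : (qr F ^ N : ℝ) ≠ 0 := (pow_pos hq0 N).ne'
  have hu : uN F N ≠ 0 := by
    unfold uN
    exact mul_ne_zero (sub_ne_zero.2 hq.ne') hQ
  -- the number of the characters that are trivial on the one-units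
  have hcard : ((Mn F N).card : ℝ) = qr F ^ N := by
    rw [card_Mn]
    push_cast
    rfl
  have hcv : c * qr F ^ N = uN F N := by
    have h1 := hc (fun _ => 1)
    have h2 : ∑ ξ ∈ XiNT F N, ‖∑ G ∈ Mn F N, (1 : ℂ) * ξ (cls N G.reverse)‖ ^ 2 = 0 := by
      refine Finset.sum_eq_zero fun ξ hξ => ?_
      have hξ' : NTx ξ := by
        classical
        unfold XiNT at hξ
        exact (Finset.mem_filter.1 hξ).2
      have h3 := sum_xi_zero N ξ hξ'
      simp only [one_mul]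
      rw [h3]
      simp
    rw [h2] at h1
    have h4 : ‖∑ G ∈ Mn F N, (1 : ℂ)‖ = qr F ^ N := by
      rw [Finset.sum_const, nsmul_eq_mul, mul_one, ← hcard]
      simp
    have h5 : ∑ G ∈ Mn F N, ‖(1 : ℂ)‖ ^ 2 = qr F ^ N := by
      simp only [norm_one, one_pow]
      rw [Finset.sum_const, nsmul_eq_mul, mul_one, hcard]
    rw [h4, h5, zero_add] at h1
    have h6 : (c * qr F ^ N) * qr F ^ N = uN F N * qr F ^ N := by
      rw [← h1]
      ring
    exact mul_right_cancel₀ hQ h6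
  set B : F[X] → ℂ := fun G => ∑ g ∈ Lw F j, w (X ^ j * G + g) with hB
  have hsumw : ∑ f ∈ Mn F (N + j), w f = ∑ G ∈ Mn F N, B G := sum_split N j w
  have hL : ∑ G ∈ Mn F N, ‖∑ g ∈ Lw F j, w (X ^ j * G + g) -
      ((qr F ^ N : ℝ) : ℂ)⁻¹ * ∑ f ∈ Mn F (N + j), w f‖ ^ 2 =
      ∑ G ∈ Mn F N, ‖B G‖ ^ 2 - (qr F ^ N)⁻¹ * ‖∑ G ∈ Mn F N, B G‖ ^ 2 := by
    rw [hsumw]
    exact variance (Mn F N) B (qr F ^ N) hQ hcard
  have hR : ∑ ξ ∈ XiNT F N, ‖∑ f ∈ Mn F (N + j), w f *
      ξ (AdjoinRoot.mk (X ^ (N + 1) : F[X]) f.reverse)‖ ^ 2 =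
      ∑ ξ ∈ XiNT F N, ‖∑ G ∈ Mn F N, B G * ξ (cls N G.reverse)‖ ^ 2 := by
    refine Finset.sum_congr rfl fun ξ _ => ?_
    congr 2
    rw [sum_split N j (fun f => w f * ξ (AdjoinRoot.mk (X ^ (N + 1) : F[X]) f.reverse))]
    refine Finset.sum_congr rfl fun G hG => ?_
    rw [hB, Finset.sum_mul]
    refine Finset.sum_congr rfl fun g hg => ?_
    have h1 := cls_rev_split hG hg
    unfold cls at h1 ⊢
    rw [h1]
  rw [hL, hR]
  have h7 := hc B
  have h8 : ∑ ξ ∈ XiNT F N, ‖∑ G ∈ Mn F N, B G * ξ (cls N G.reverse)‖ ^ 2 =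
      uN F N * ∑ G ∈ Mn F N, ‖B G‖ ^ 2 - c * ‖∑ G ∈ Mn F N, B G‖ ^ 2 := by
    linarith
  rw [h8]
  have h9 : c = uN F N * (qr F ^ N)⁻¹ := by
    field_simp
    exact hcv
  rw [h9]
  field_simp

end

end Pool.Agent.Helper76.FC
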